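import Pool.Agent.V8H99.SL.Sums
import Pool.Agent.R503.SIC.Dil
import Pool.Agent.N392.WH.Zeros

/-! # Fiducials in prime dimension which are invariant under the multiplication by squares -/

set_option autoImplicit false

namespace Pool.Agent.V8H99.SL

open Finset
open scoped ComplexConjugate
open Pool.Agent.R503.SIC (Fid)

theorem dec11 : ((3 : ZMod 11) ≠ 0 ∧ (3 : ZMod 11) ^ (11 / 2) = 1) ∧
    ((5 : ZMod 11) ≠ 0 ∧ (5 : ZMod 11) ^ (11 / 2) = 1) ∧
    ((4 : ZMod 11) ≠ 0 ∧ (4 : ZMod 11) ^ (11 / 2) = 1) ∧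
    ((9 : ZMod 11) ≠ 0 ∧ (9 : ZMod 11) ^ (11 / 2) = 1) ∧
    ((2 : ZMod 11) ≠ 0 ∧ (2 : ZMod 11) ^ (11 / 2) = -1) ∧
    ((6 : ZMod 11) ≠ 0 ∧ (6 : ZMod 11) ^ (11 / 2) = -1) ∧
    ((7 : ZMod 11) ≠ 0 ∧ (7 : ZMod 11) ^ (11 / 2) = -1) ∧
    ((8 : ZMod 11) ≠ 0 ∧ (8 : ZMod 11) ^ (11 / 2) = -1) ∧
    ((10 : ZMod 11) ≠ 0 ∧ (10 : ZMod 11) ^ (11 / 2) = -1) ∧
    ((3 : ZMod 11) ≠ 1 ∧ (5 : ZMod 11) ≠ 1 ∧ (1 + 3 : ZMod 11) = 4 ∧ (1 + 5 : ZMod 11) = 6) := by
  decide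

theorem sum11 {M : Type} [AddCommMonoid M] (F : ZMod 11 → M) : ∑ j, F j =
    F 0 + (F 1 + (F 2 + (F 3 + (F 4 + (F 5 + (F 6 + (F 7 + (F 8 + (F 9 + F 10))))))))) := by
  have h : (univ : Finset (ZMod 11)) = {0, 1, 2, 3, 4, 5, 6, 7, 8, 9, 10} := by decide
  rw [h, sum_insert (by decide), sum_insert (by decide), sum_insert (by decide),
    sum_insert (by decide), sum_insert (by decide), sum_insert (by decide), sum_insert (by decide),
    sum_insert (by decide), sum_insert (by decide), sum_insert (by decide), sum_singleton]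

theorem add11 : ((2 : ZMod 11) + 10 = 1 ∧ (3 : ZMod 11) + 10 = 2 ∧ (4 : ZMod 11) + 10 = 3) ∧
    ((10 : ZMod 11) + 1 = 0 ∧ (9 : ZMod 11) + 1 = 10 ∧ (8 : ZMod 11) + 1 = 9 ∧ (7 : ZMod 11) + 1 = 8 ∧
      (6 : ZMod 11) + 1 = 7 ∧ (5 : ZMod 11) + 1 = 6 ∧ (4 : ZMod 11) + 1 = 5 ∧ (3 : ZMod 11) + 1 = 4 ∧
      (2 : ZMod 11) + 1 = 3 ∧ (1 : ZMod 11) + 1 = 2 ∧ (0 : ZMod 11) + 1 = 1) ∧
    ((10 : ZMod 11) + 3 = 2 ∧ (9 : ZMod 11) + 3 = 1 ∧ (8 : ZMod 11) + 3 = 0 ∧ (7 : ZMod 11) + 3 = 10 ∧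
      (6 : ZMod 11) + 3 = 9 ∧ (5 : ZMod 11) + 3 = 8 ∧ (4 : ZMod 11) + 3 = 7 ∧ (3 : ZMod 11) + 3 = 6 ∧
      (2 : ZMod 11) + 3 = 5 ∧ (1 : ZMod 11) + 3 = 4 ∧ (0 : ZMod 11) + 3 = 3) ∧
    ((10 : ZMod 11) + 5 = 4 ∧ (9 : ZMod 11) + 5 = 3 ∧ (8 : ZMod 11) + 5 = 2 ∧ (7 : ZMod 11) + 5 = 1 ∧
      (6 : ZMod 11) + 5 = 0 ∧ (5 : ZMod 11) + 5 = 10 ∧ (4 : ZMod 11) + 5 = 9 ∧ (3 : ZMod 11) + 5 = 8 ∧
      (2 : ZMod 11) + 5 = 7 ∧ (1 : ZMod 11) + 5 = 6 ∧ (0 : ZMod 11) + 5 = 5) := by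
  decide

variable {p : ℕ} [Fact p.Prime]

/-- there are no even fiducials in prime dimension at least 5 -/
theorem no_even (hp5 : 5 ≤ p) {ψ : ZMod p → ℂ} (h : Fid ψ) (he : ∀ j, ψ (-j) = ψ j) : False := by
  have hp : p.Prime := Fact.out
  have hs : Pool.Agent.R503.SIC.Sym ψ (-1) 0 0 1 := by
    refine ⟨by ring, fun j => ?_⟩
    rw [zero_mul, Pool.Agent.R503.SIC.e_zero, one_mul, one_mul, add_zero, neg_one_mul, he]
  have hne : (-1 : ZMod p) ≠ 1 := by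
    intro h1
    have h2 : ((2 : ℕ) : ZMod p) = 0 := by
      push_cast
      linear_combination -h1
    rw [ZMod.natCast_eq_zero_iff] at h2
    have := Nat.le_of_dvd (by norm_num) h2
    omega
  obtain ⟨t, ht, -⟩ := Pool.Agent.R503.SIC.dilation h hs hne
  have ht2 : 2 ≤ t := by
    by_contra hc
    have : t ≤ 1 := by omega
    have : t ^ 2 ≤ 1 := by nlinarith
    omega
  have h3 : (t - 1) * (t + 1) = p := by
    zify [show 1 ≤ t by omega]
    have : (t : ℤ) ^ 2 = p + 1 := by exact_mod_cast ht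
    linear_combination this
  rcases hp.eq_one_or_self_of_dvd (t - 1) ⟨t + 1, h3.symm⟩ with h4 | h4
  · have : t = 2 := by omega
    subst this
    omega
  · rw [h4] at h3
    have : p * (t + 1) = p * 1 := by rw [h3, mul_one]
    have := Nat.eq_of_mul_eq_mul_left hp.pos this
    omega

/-- the algebra in dimension 11 -/
theorem eleven (g0 g1 w : ℂ) (hg1 : g1 ≠ 0)
    (E1 : 11 * (g0 * conj g0) ^ 2 - (4 * (g0 * conj g0) * (g1 * conj g1) + g1 ^ 2 * conj g0 ^ 2 +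
        g0 ^ 2 * conj g1 ^ 2) + (g1 * conj g1) ^ 2 * 3 +
      w * ((conj g0 + conj g1) ^ 2 * (g0 + g1) + (conj g0 - conj g1) ^ 2 * (g0 - g1)) +
      2 * conj w * conj g0 * (g0 ^ 2 - g1 ^ 2) = 0)
    (E2 : 11 * (g0 * conj g0) ^ 2 - (4 * (g0 * conj g0) * (g1 * conj g1) + g1 ^ 2 * conj g0 ^ 2 +
        g0 ^ 2 * conj g1 ^ 2) + (g1 * conj g1) ^ 2 * (-5) +
      w * ((conj g0 + conj g1) ^ 2 * (g0 - g1) + (conj g0 - conj g1) ^ 2 * (g0 + g1)) +
      2 * conj w * conj g0 * (g0 ^ 2 - g1 ^ 2) = 0)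
    (hn : ‖g0 + w‖ ^ 2 + 5 * ‖g0 + g1‖ ^ 2 + 5 * ‖g0 - g1‖ ^ 2 = 1)
    (hf : ‖g0 + w‖ ^ 4 + 5 * ‖g0 + g1‖ ^ 4 + 5 * ‖g0 - g1‖ ^ 4 = 1 / 6) : False := by
  set x : ℝ := ‖g0‖ ^ 2 with hx
  set y : ℝ := ‖g1‖ ^ 2 with hy
  have hX : g0 * conj g0 = (x : ℂ) := by
    rw [Complex.mul_conj, Complex.normSq_eq_norm_sq]
  have hY : g1 * conj g1 = (y : ℂ) := by
    rw [Complex.mul_conj, Complex.normSq_eq_norm_sq]
  have hy0 : 0 < y := by
    have : 0 < ‖g1‖ := norm_pos_iff.2 hg1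
    positivity
  have hw : w * conj g0 = -(y : ℂ) := by
    have h1 : (y : ℂ) ≠ 0 := by exact_mod_cast hy0.ne'
    apply mul_left_cancel₀ h1
    rw [← hY]
    linear_combination (1 / 8 : ℂ) * E1 - (1 / 8 : ℂ) * E2
  have hwc : conj w * g0 = -(y : ℂ) := by
    have := congrArg conj hw
    rw [map_mul, Complex.conj_conj, map_neg, Complex.conj_ofReal] at this
    exact this
  have hx0 : 0 < x := by
    have h1 : g0 ≠ 0 := by
      intro h0
      rw [h0, map_zero, mul_zero] at hw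
      have : (y : ℂ) = 0 := by linear_combination hw
      exact hy0.ne' (by exact_mod_cast this)
    have : 0 < ‖g0‖ := norm_pos_iff.2 h1
    positivity
  rw [← hY] at hw hwc
  have E3 : (g0 * conj g0) * (11 * (g0 * conj g0) ^ 2 - 8 * (g0 * conj g0) * (g1 * conj g1) -
      ((g0 * conj g1) ^ 2 + (conj g0 * g1) ^ 2) - (g1 * conj g1) ^ 2) -
      2 * (g1 * conj g1) * ((g0 * conj g1) ^ 2 - (conj g0 * g1) ^ 2) = 0 := by
    linear_combination (g0 * conj g0 / 2) * E1 + (g0 * conj g0 / 2) * E2 -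
      2 * g0 ^ 2 * (conj g0 ^ 2 + conj g1 ^ 2) * hw - 2 * conj g0 ^ 2 * (g0 ^ 2 - g1 ^ 2) * hwc
  obtain ⟨a, b, hab⟩ : ∃ a b : ℝ, g0 * conj g1 = (a : ℂ) + b * Complex.I :=
    ⟨(g0 * conj g1).re, (g0 * conj g1).im, (Complex.re_add_im _).symm⟩
  have hab' : conj g0 * g1 = (a : ℂ) - b * Complex.I := by
    have := congrArg conj hab
    rw [map_mul, Complex.conj_conj, map_add, map_mul, Complex.conj_ofReal, Complex.conj_ofReal,
      Complex.conj_I] at this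
    rw [this]; ring
  have hzz2 : a ^ 2 + b ^ 2 = x * y := by
    have h1 : (g0 * conj g1) * (conj g0 * g1) = (x : ℂ) * y := by rw [← hX, ← hY]; ring
    rw [hab, hab'] at h1
    have h2 : ((a ^ 2 + b ^ 2 : ℝ) : ℂ) = ((x * y : ℝ) : ℂ) := by
      push_cast
      linear_combination h1 + (b : ℂ) ^ 2 * Complex.I_sq
    exact_mod_cast h2
  rw [hX, hY, hab, hab'] at E3
  have E4 : ((x * (11 * x ^ 2 - 8 * x * y - 2 * (a ^ 2 - b ^ 2) - y ^ 2) : ℝ) : ℂ) -
      ((8 * (y * (a * b)) : ℝ) : ℂ) * Complex.I = 0 := by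
    push_cast
    linear_combination E3 + 2 * (x : ℂ) * (b : ℂ) ^ 2 * Complex.I_sq
  have hre : x * (11 * x ^ 2 - 8 * x * y - 2 * (a ^ 2 - b ^ 2) - y ^ 2) = 0 := by
    have := congrArg Complex.re E4
    simpa only [Complex.sub_re, Complex.ofReal_re, Complex.mul_re, Complex.I_re, Complex.I_im,
      Complex.ofReal_im, mul_zero, zero_mul, sub_zero, Complex.zero_re] using this
  have him : 8 * (y * (a * b)) = 0 := by
    have := congrArg Complex.im E4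
    simp only [Complex.sub_im, Complex.ofReal_re, Complex.mul_im, Complex.I_re, Complex.I_im,
      Complex.ofReal_im, mul_zero, mul_one, zero_sub, Complex.zero_im, add_zero] at this
    linarith
  have hre' : 11 * x ^ 2 - 8 * x * y - 2 * (a ^ 2 - b ^ 2) - y ^ 2 = 0 :=
    (mul_eq_zero.1 hre).resolve_left hx0.ne'
  have him' : a * b = 0 := by
    have h1 : y * (a * b) = 0 := by linarith
    exact (mul_eq_zero.1 h1).resolve_left hy0.ne'
  -- the norms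
  set f0 : ℝ := ‖g0 + w‖ ^ 2 with hf0
  have hf0x : f0 * x = (x - y) ^ 2 := by
    have h1 : ((g0 + w) * conj (g0 + w)) * (g0 * conj g0) =
        (g0 * conj g0 - g1 * conj g1) ^ 2 := by
      rw [map_add]
      linear_combination (g0 * conj g0 + conj w * g0) * hw + (g0 * conj g0 - g1 * conj g1) * hwc
    rw [hX, hY, Complex.mul_conj, Complex.normSq_eq_norm_sq] at h1
    exact_mod_cast h1
  have hp : ‖g0 + g1‖ ^ 2 = x + y + 2 * a := by
    have h1 : (g0 + g1) * conj (g0 + g1) = ((x + y + 2 * a : ℝ) : ℂ) := by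
      rw [map_add]
      push_cast
      linear_combination hX + hY + hab + hab'
    rw [Complex.mul_conj, Complex.normSq_eq_norm_sq] at h1
    exact_mod_cast h1
  have hm : ‖g0 - g1‖ ^ 2 = x + y - 2 * a := by
    have h1 : (g0 - g1) * conj (g0 - g1) = ((x + y - 2 * a : ℝ) : ℂ) := by
      rw [map_sub]
      push_cast
      linear_combination hX + hY - hab - hab'
    rw [Complex.mul_conj, Complex.normSq_eq_norm_sq] at h1
    exact_mod_cast h1
  rw [hp, hm] at hn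
  have hf' : f0 ^ 2 + 5 * (x + y + 2 * a) ^ 2 + 5 * (x + y - 2 * a) ^ 2 = 1 / 6 := by
    rw [← hp, ← hm, ← hf, hf0]; ring
  rcases mul_eq_zero.1 him' with h0 | h0
  · -- `a = 0`
    rw [h0] at hzz2 hre' hn hf'
    have hb2 : b ^ 2 = x * y := by linarith
    have e1 : 11 * x ^ 2 - 6 * x * y - y ^ 2 = 0 := by nlinarith
    have e2 : f0 = 12 * x - 8 * y := by
      apply mul_right_cancel₀ hx0.ne'
      rw [hf0x]
      nlinarith
    have e3 : y = (1 - 22 * x) / 2 := by linarith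
    rw [e2, e3] at hf'
    rw [e3] at e1
    have e4 : 1100 * x = 265 / 6 := by nlinarith
    have e5 : x = 53 / 1320 := by linarith
    rw [e5] at e1
    norm_num at e1
  · -- `b = 0`
    rw [h0] at hzz2 hre'
    have ha2 : a ^ 2 = x * y := by linarith
    have e1 : (11 * x + y) * (x - y) = 0 := by nlinarith
    have e2 : x = y := by
      rcases mul_eq_zero.1 e1 with h | h
      · nlinarith
      · linarith
    rw [← e2] at hf0x ha2 hn hf'
    have e3 : f0 = 0 := by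
      rw [sub_self] at hf0x
      have : f0 * x = 0 := by rw [hf0x]; ring
      exact (mul_eq_zero.1 this).resolve_right hx0.ne'
    rw [e3] at hn hf'
    have e4 : x = 1 / 20 := by linarith
    rw [e4] at hf' ha2
    nlinarith

/-- a vector invariant under the multiplication by squares has three values -/
theorem eq_V {ψ : ZMod p → ℂ} (hsq : ∀ a j : ZMod p, a ≠ 0 → ψ (a * a * j) = ψ j) (h4 : p % 4 = 3) :
    ψ = V ((ψ 1 + ψ (-1)) / 2) ((ψ 1 - ψ (-1)) / 2) (ψ 0 - (ψ 1 + ψ (-1)) / 2) := by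
  funext j
  unfold V
  by_cases hj : j = 0
  · subst hj
    rw [L_zero, if_pos rfl]
    push_cast
    ring
  · rw [if_neg hj]
    rcases L_pm hj with h | h
    · obtain ⟨a, ha⟩ := (quadraticChar_one_iff_isSquare hj).1 h
      have ha0 : a ≠ 0 := by
        rintro rfl
        exact hj (by rw [ha, mul_zero])
      have h1 := hsq a 1 ha0
      rw [mul_one, ← ha] at h1
      rw [h, h1]
      push_cast
      ring
    · have hj' : -j ≠ 0 := neg_ne_zero.2 hj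
      have h2 : L (-j) = 1 := by rw [L_neg h4, h]; norm_num
      obtain ⟨a, ha⟩ := (quadraticChar_one_iff_isSquare hj').1 h2
      have ha0 : a ≠ 0 := by
        rintro rfl
        exact hj' (by rw [ha, mul_zero])
      have h1 := hsq a (-1) ha0
      rw [mul_neg, mul_one, ← ha, neg_neg] at h1
      rw [h, h1]
      push_cast
      ring

/-- the four term relation for three-valued fiducials -/
theorem four (h4 : p % 4 = 3) {g0 g1 w : ℂ} (h : Fid (V g0 g1 w : ZMod p → ℂ)) {u : ZMod p}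
    (hu : L u = 1) (hu1 : u ≠ 1) :
    p * (g0 * conj g0) ^ 2 - (4 * (g0 * conj g0) * (g1 * conj g1) + g1 ^ 2 * conj g0 ^ 2 +
        g0 ^ 2 * conj g1 ^ 2) + (g1 * conj g1) ^ 2 * (Es u : ℂ) +
      w * ((conj g0 + conj g1) ^ 2 * (g0 + g1 * (L (1 + u) : ℂ)) +
        (conj g0 - conj g1) ^ 2 * (g0 - g1 * (L (1 + u) : ℂ))) +
      2 * conj w * conj g0 * (g0 ^ 2 - g1 ^ 2) = 0 := by
  have hu0 : u ≠ 0 := by
    intro h
    rw [h, L_zero] at hu
    norm_num at hu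
  rw [← sum_V h4 g0 g1 w hu hu1, ← Pool.Agent.N392.WH.four_term h one_ne_zero hu0]
  refine sum_congr rfl fun j _ => ?_
  unfold Pool.Agent.N392.WH.FF
  rw [map_mul, Complex.conj_conj, show j + u + 1 = j + 1 + u by ring]
  ring

theorem L_of_pow_one (hp2 : p ≠ 2) {x : ZMod p} (hx : x ≠ 0) (h : x ^ (p / 2) = 1) : L x = 1 := by
  rcases L_pm hx with h1 | h1
  · exact h1
  · exfalso
    have h2 := L_cast hp2 x
    rw [h1, h] at h2
    push_cast at h2
    have h3 : ((2 : ℕ) : ZMod p) = 0 := by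
      push_cast
      linear_combination -h2
    rw [ZMod.natCast_eq_zero_iff] at h3
    have h4 : p.Prime := Fact.out
    exact hp2 ((Nat.prime_dvd_prime_iff_eq h4 Nat.prime_two).1 h3)

theorem L_of_pow_neg (hp2 : p ≠ 2) {x : ZMod p} (hx : x ≠ 0) (h : x ^ (p / 2) = -1) : L x = -1 := by
  rcases L_pm hx with h1 | h1
  · exfalso
    have h2 := L_cast hp2 x
    rw [h1, h] at h2
    push_cast at h2
    have h3 : ((2 : ℕ) : ZMod p) = 0 := by
      push_cast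
      linear_combination h2
    rw [ZMod.natCast_eq_zero_iff] at h3
    have h4 : p.Prime := Fact.out
    exact hp2 ((Nat.prime_dvd_prime_iff_eq h4 Nat.prime_two).1 h3)
  · exact h1

/-- **Three-valued fiducials, `p ≡ 3 (mod 4)`.** -/
theorem main3 (h4 : p % 4 = 3) (hp11 : 11 ≤ p) (h19 : p ≠ 19) {ψ : ZMod p → ℂ} (h : Fid ψ)
    (hsq : ∀ a j : ZMod p, a ≠ 0 → ψ (a * a * j) = ψ j) : False := by
  classical
  have hp2 : p ≠ 2 := by omega
  have hV := eq_V hsq h4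
  obtain ⟨g0, hg0⟩ : ∃ g0, g0 = (ψ 1 + ψ (-1)) / 2 := ⟨_, rfl⟩
  obtain ⟨g1, hg1⟩ : ∃ g1, g1 = (ψ 1 - ψ (-1)) / 2 := ⟨_, rfl⟩
  obtain ⟨w, hw⟩ : ∃ w, w = ψ 0 - (ψ 1 + ψ (-1)) / 2 := ⟨_, rfl⟩
  rw [← hw, ← hg0, ← hg1] at hV
  have hg1ne : g1 ≠ 0 := by
    intro h0
    refine no_even (by omega) h fun j => ?_
    rw [hV]
    unfold V
    rw [h0, zero_mul, zero_mul]
    by_cases hj : j = 0
    · rw [hj, neg_zero]
    · rw [if_neg hj, if_neg (neg_ne_zero.2 hj)]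
  have hF : Fid (V g0 g1 w : ZMod p → ℂ) := by rw [← hV]; exact h
  by_cases h11 : p = 11
  · -- the dimension 11
    subst h11
    obtain ⟨⟨n3, d3⟩, ⟨n5, d5⟩, ⟨n4, d4⟩, ⟨n9, d9⟩, ⟨n2, d2⟩, ⟨n6, d6⟩, ⟨n7, d7⟩, ⟨n8, d8⟩, ⟨n10, d10⟩,
      m3, m5, a4, a6⟩ := dec11
    obtain ⟨-, ⟨b10, b9, b8, b7, b6, b5, b4, b3, b2, b1, b0⟩,
      ⟨t10, t9, t8, t7, t6, t5, t4, t3, t2, t1, t0⟩,
      ⟨f10, f9, f8, f7, f6, f5, f4, f3, f2, f1, f0⟩⟩ := add11
    have e3 : L (3 : ZMod 11) = 1 := L_of_pow_one hp2 n3 d3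
    have e5 : L (5 : ZMod 11) = 1 := L_of_pow_one hp2 n5 d5
    have e4 : L (4 : ZMod 11) = 1 := L_of_pow_one hp2 n4 d4
    have e9 : L (9 : ZMod 11) = 1 := L_of_pow_one hp2 n9 d9
    have e2 : L (2 : ZMod 11) = -1 := L_of_pow_neg hp2 n2 d2
    have e6 : L (6 : ZMod 11) = -1 := L_of_pow_neg hp2 n6 d6
    have e7 : L (7 : ZMod 11) = -1 := L_of_pow_neg hp2 n7 d7
    have e8 : L (8 : ZMod 11) = -1 := L_of_pow_neg hp2 n8 d8
    have e10 : L (10 : ZMod 11) = -1 := L_of_pow_neg hp2 n10 d10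
    have e0 : L (0 : ZMod 11) = 0 := L_zero
    have e1 : L (1 : ZMod 11) = 1 := L_one
    have s3 : Es (3 : ZMod 11) = 3 := by
      unfold Es
      rw [sum11]
      simp only [b0, b1, b2, b3, b4, b5, b6, b7, b8, b9, b10, t0, t1, t2, t3, t4, t5, t6, t7, t8, t9,
        t10, e0, e1, e2, e3, e4, e5, e6, e7, e8, e9, e10]
      norm_num
    have s5 : Es (5 : ZMod 11) = -5 := by
      unfold Es
      rw [sum11]
      simp only [b0, b1, b2, b3, b4, b5, b6, b7, b8, b9, b10, f0, f1, f2, f3, f4, f5, f6, f7, f8, f9,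
        f10, e0, e1, e2, e3, e4, e5, e6, e7, e8, e9, e10]
      norm_num
    have E1 := four h4 hF e3 m3
    have E2 := four h4 hF e5 m5
    rw [s3, a4, e4] at E1
    rw [s5, a6, e6] at E2
    push_cast at E1 E2
    refine eleven g0 g1 w hg1ne (by linear_combination E1) (by linear_combination E2) ?_ ?_
    · have hh := hF.1
      rw [sum11] at hh
      simp only [V, e0, e1, e2, e3, e4, e5, e6, e7, e8, e9, e10, if_pos, if_neg n3, if_neg n5,
        if_neg n4, if_neg n9, if_neg n2, if_neg n6, if_neg n7, if_neg n8, if_neg n10,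
        if_neg (one_ne_zero : (1 : ZMod 11) ≠ 0)] at hh
      push_cast at hh
      simp only [mul_zero, mul_one, add_zero, mul_neg, ← sub_eq_add_neg] at hh
      linarith
    · have hh := Pool.Agent.N392.WH.fourth hF
      rw [sum11] at hh
      simp only [V, e0, e1, e2, e3, e4, e5, e6, e7, e8, e9, e10, if_pos, if_neg n3, if_neg n5,
        if_neg n4, if_neg n9, if_neg n2, if_neg n6, if_neg n7, if_neg n8, if_neg n10,
        if_neg (one_ne_zero : (1 : ZMod 11) ≠ 0)] at hh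
      push_cast at hh
      simp only [mul_zero, mul_one, add_zero, mul_neg, ← sub_eq_add_neg] at hh
      norm_num at hh
      linarith
  · -- large primes
    have hm : p = 2 * (p / 2) + 1 := by omega
    have hcst : ∀ u v : ZMod p, L u = 1 → u ≠ 1 → L v = 1 → v ≠ 1 → L (1 + u) = L (1 + v) →
        Es u = Es v := by
      intro u v hu hu1 hv hv1 huv
      have h1 := four h4 hF hu hu1
      have h2 := four h4 hF hv hv1
      rw [huv] at h1
      have h3 : (g1 * conj g1) ^ 2 * ((Es u : ℂ) - (Es v : ℂ)) = 0 := by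
        linear_combination h1 - h2
      have h5 : (g1 * conj g1) ^ 2 ≠ 0 :=
        pow_ne_zero _ (mul_ne_zero hg1ne ((map_ne_zero _).2 hg1ne))
      have h6 := (mul_eq_zero.1 h3).resolve_left h5
      exact_mod_cast sub_eq_zero.1 h6
    have hex : ∀ τ : ℤ, ∃ e : ℤ, ∀ u : ZMod p, L u = 1 → u ≠ 1 → L (1 + u) = τ → Es u = e := by
      intro τ
      by_cases hτ : ∃ v : ZMod p, L v = 1 ∧ v ≠ 1 ∧ L (1 + v) = τ
      · obtain ⟨v, hv, hv1, hvτ⟩ := hτ
        exact ⟨Es v, fun u hu hu1 huτ => hcst u v hu hu1 hv hv1 (huτ.trans hvτ.symm)⟩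
      · exact ⟨0, fun u hu hu1 huτ => absurd ⟨u, hu, hu1, huτ⟩ hτ⟩
    obtain ⟨c1, hc1⟩ := hex 1
    obtain ⟨c2, hc2⟩ := hex (-1)
    have hodd : (p / 2) % 2 = 1 := by omega
    have hm7 : 7 ≤ p / 2 := by omega
    exact h19 (num hm hodd hm7 c1 c2 fun u _ hu1 hu =>
      ⟨fun hτ => hc1 u hu hu1 hτ, fun hτ => hc2 u hu hu1 hτ⟩)

end Pool.Agent.V8H99.SL
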