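import Mathlib

/-!
# Character sums over four points and the primes 3, 7, 11, 19

For a prime `p ≡ 3 (mod 4)` and a square `u` let `E(u) = ∑ χ(j) χ(j+1) χ(j+u) χ(j+1+u)` with the
quadratic character `χ`. We show: if `p ≥ 19` and `E(u)` depends only on `χ(1+u)` for the squares
`u ≠ 0, 1`, then `p = 19`.

Modulo `p` one has `E(u) + 1 = - ∑ C(m,i)^2 u^(2i)`, `m = (p-1)/2`, and `χ(1+u) = ∑ C(m,r) u^r`. If
`E(u)` is `A + B χ(1+u)`, then the coefficients `C(m,s)^2 + B' C(m,2s)` for `1 ≤ s ≤ (m-1)/2` are all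
equal modulo `p`; as `m = -1/2` modulo `p`, these are explicit rational numbers, and `s = 1, 2, 3`
give `114 = 0` modulo `p`.
-/

set_option autoImplicit false

namespace Pool.Agent.V8H99.SL

open Finset

variable {p : ℕ} [Fact p.Prime]

/-- the quadratic character -/
abbrev L (x : ZMod p) : ℤ := quadraticChar (ZMod p) x

/-- the four point sum -/
def Es (u : ZMod p) : ℤ := ∑ j : ZMod p, L j * L (j + 1) * L (j + u) * L (j + 1 + u)

theorem L_mul (x y : ZMod p) : L (x * y) = L x * L y := map_mul _ _ _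

theorem L_sq {x : ZMod p} (hx : x ≠ 0) : L (x * x) = 1 := by
  have := quadraticChar_sq_one' hx
  rw [sq] at this
  exact this

theorem L_zero : L (0 : ZMod p) = 0 := by simp [L]

theorem L_one : L (1 : ZMod p) = 1 := by simp [L]

theorem L_pm {x : ZMod p} (hx : x ≠ 0) : L x = 1 ∨ L x = -1 := quadraticChar_dichotomy hx

theorem Lsq_one {x : ZMod p} (hx : x ≠ 0) : L x * L x = 1 := by
  rcases L_pm hx with h | h <;> rw [h] <;> norm_num

omit [Fact p.Prime] in
theorem ne_two (h4 : p % 4 = 3) : p ≠ 2 := by omega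

theorem L_neg_one (h4 : p % 4 = 3) : L (-1 : ZMod p) = -1 := by
  have hc : ringChar (ZMod p) ≠ 2 := by rw [ZMod.ringChar_zmod_n]; exact ne_two h4
  have h1 : ¬ IsSquare (-1 : ZMod p) := by
    rw [ZMod.exists_sq_eq_neg_one_iff]
    simp [h4]
  exact (quadraticChar_neg_one_iff_not_isSquare).2 h1

theorem L_neg (h4 : p % 4 = 3) (x : ZMod p) : L (-x) = - L x := by
  have : -x = (-1) * x := by ring
  rw [this, L_mul, L_neg_one h4]; ring

/-- Euler's criterion -/
theorem L_cast (hp2 : p ≠ 2) (x : ZMod p) : ((L x : ℤ) : ZMod p) = x ^ (p / 2) := by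
  have hc : ringChar (ZMod p) ≠ 2 := by rw [ZMod.ringChar_zmod_n]; exact hp2
  have := quadraticChar_eq_pow_of_char_ne_two' hc x
  rw [ZMod.card] at this
  exact this

/-- power sums -/
theorem sum_pow_ne (n : ℕ) (hn : n ≠ 0) :
    ∑ x : ZMod p, x ^ n = if (p - 1) ∣ n then -1 else 0 := by
  classical
  have h1 := FiniteField.sum_pow_units (ZMod p) n
  rw [ZMod.card] at h1
  rw [← h1]
  let φ : (ZMod p)ˣ ↪ ZMod p := ⟨fun x ↦ x, Units.val_injective⟩
  have h2 : univ.map φ = univ \ {0} := by
    ext x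
    simpa only [mem_map, mem_univ, Function.Embedding.coeFn_mk, true_and, mem_sdiff,
      mem_singleton, φ] using! isUnit_iff_ne_zero
  calc
    ∑ x : ZMod p, x ^ n = ∑ x ∈ univ \ {(0 : ZMod p)}, x ^ n := by
      rw [← sum_sdiff ({0} : Finset (ZMod p)).subset_univ, sum_singleton, zero_pow hn, add_zero]
    _ = ∑ x : (ZMod p)ˣ, (x ^ n : ZMod p) := by simp [φ, ← h2, univ.sum_map φ]

theorem Es_add_one {u : ZMod p} (hu : 1 + u ≠ 0) :
    Es u + 1 = ∑ t : ZMod p, L t * L (u + t) * L (u * t + 1) := by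
  classical
  unfold Es
  rw [← Finset.add_sum_erase univ (fun t : ZMod p => L t * L (u + t) * L (u * t + 1))
      (mem_univ (1 : ZMod p)), ← Finset.add_sum_erase univ
      (fun j : ZMod p => L j * L (j + 1) * L (j + u) * L (j + 1 + u)) (mem_univ (0 : ZMod p))]
  have h1 : L (1 : ZMod p) * L (u + 1) * L (u * 1 + 1) = 1 := by
    rw [L_one, mul_one, one_mul, Lsq_one (by rw [add_comm]; exact hu)]
  have h0 : L (0 : ZMod p) * L ((0 : ZMod p) + 1) * L (0 + u) * L (0 + 1 + u) = 0 := by
    rw [L_zero]; ring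
  rw [h1, h0, zero_add, add_comm]
  congr 1
  refine Finset.sum_bij' (fun j _ => (j + 1 + u) / j) (fun t _ => (1 + u) / (t - 1)) ?_ ?_ ?_ ?_ ?_
  · intro j hj
    have hj0 : j ≠ 0 := ne_of_mem_erase hj
    refine mem_erase.2 ⟨fun h => hu ?_, mem_univ _⟩
    rw [div_eq_iff hj0] at h
    linear_combination h
  · intro t ht
    have ht0 : t - 1 ≠ 0 := sub_ne_zero.2 (ne_of_mem_erase ht)
    exact mem_erase.2 ⟨div_ne_zero hu ht0, mem_univ _⟩
  · intro j hj
    have hj0 : j ≠ 0 := ne_of_mem_erase hj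
    have h2 : (j + 1 + u) / j - 1 = (1 + u) / j := by
      field_simp
      ring
    show (1 + u) / ((j + 1 + u) / j - 1) = j
    rw [h2]
    field_simp
  · intro t ht
    have ht0 : t - 1 ≠ 0 := sub_ne_zero.2 (ne_of_mem_erase ht)
    show ((1 + u) / (t - 1) + 1 + u) / ((1 + u) / (t - 1)) = t
    field_simp
    ring
  · intro j hj
    have hj0 : j ≠ 0 := ne_of_mem_erase hj
    show L j * L (j + 1) * L (j + u) * L (j + 1 + u) =
      L ((j + 1 + u) / j) * L (u + (j + 1 + u) / j) * L (u * ((j + 1 + u) / j) + 1)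
    have h3 : (j + 1 + u) / j = (j + 1 + u) * j⁻¹ := div_eq_mul_inv _ _
    have h4 : u + (j + 1 + u) / j = (1 + u) * (j + 1) * j⁻¹ := by
      field_simp
      ring
    have h5 : u * ((j + 1 + u) / j) + 1 = (1 + u) * (j + u) * j⁻¹ := by
      field_simp
      ring
    have h6 : L (j⁻¹) = L j := by
      have h7 : L (j * j⁻¹) = 1 := by rw [mul_inv_cancel₀ hj0, L_one]
      rw [L_mul] at h7
      rcases L_pm hj0 with h | h <;> rw [h] at h7 ⊢ <;> linarith
    rw [h4, h5, h3]
    simp only [L_mul, h6]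
    have e1 := Lsq_one hu
    have e2 := Lsq_one hj0
    calc L j * L (j + 1) * L (j + u) * L (j + 1 + u)
        = (L (1 + u) * L (1 + u)) * (L j * L j) * (L j * L (j + 1) * L (j + u) * L (j + 1 + u)) := by
          rw [e1, e2]; ring
      _ = _ := by ring

theorem Es_cast {m : ℕ} (hm : p = 2 * m + 1) (hm0 : 1 ≤ m) {u : ZMod p} (hu : 1 + u ≠ 0) :
    ((Es u : ℤ) : ZMod p) + 1 = - ∑ i ∈ range (m + 1), (m.choose i : ZMod p) ^ 2 * u ^ (2 * i) := by
  have hp2 : p ≠ 2 := by omega
  have hpm : p / 2 = m := by omega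
  have hp1 : p - 1 = 2 * m := by omega
  have h1 : ((Es u : ℤ) : ZMod p) + 1 = ∑ t : ZMod p, t ^ m * (u + t) ^ m * (u * t + 1) ^ m := by
    have h2 := congrArg (Int.cast : ℤ → ZMod p) (Es_add_one hu)
    push_cast at h2
    rw [h2]
    refine sum_congr rfl fun t _ => ?_
    rw [L_cast hp2, L_cast hp2, L_cast hp2, hpm]
  rw [h1]
  have h3 : ∀ t : ZMod p, t ^ m * (u + t) ^ m * (u * t + 1) ^ m =
      ∑ i ∈ range (m + 1), ∑ k ∈ range (m + 1),
        (m.choose i : ZMod p) * (m.choose k : ZMod p) * u ^ i * u ^ k * t ^ (m + (m - i) + k) := by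
    intro t
    rw [add_pow u t, add_pow (u * t) 1, mul_assoc, sum_mul_sum, mul_sum]
    refine sum_congr rfl fun i _ => ?_
    rw [mul_sum]
    refine sum_congr rfl fun k _ => ?_
    rw [mul_pow, one_pow, pow_add, pow_add]
    ring
  rw [sum_congr rfl fun t _ => h3 t, sum_comm, ← sum_neg_distrib]
  refine sum_congr rfl fun i hi => ?_
  rw [sum_comm]
  have hi' : i ≤ m := Nat.lt_succ_iff.1 (mem_range.1 hi)
  rw [sum_eq_single i]
  · rw [← mul_sum, sum_pow_ne _ (by omega), if_pos]
    · ring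
    · rw [hp1]
      exact ⟨1, by omega⟩
  · intro k hk hki
    have hk' : k ≤ m := Nat.lt_succ_iff.1 (mem_range.1 hk)
    rw [← mul_sum, sum_pow_ne _ (by omega), if_neg, mul_zero]
    rw [hp1]
    rintro ⟨c, hc⟩
    have hc1 : c = 1 := by
      rcases Nat.lt_or_ge c 1 with h | h
      · have : c = 0 := by omega
        subst this
        omega
      · rcases Nat.lt_or_ge c 2 with h' | h'
        · omega
        · have : 2 * m * 2 ≤ 2 * m * c := Nat.mul_le_mul_left _ h'
          omega
    subst hc1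
    omega
  · intro h; exact absurd hi h

/-- extraction of the coefficients -/
theorem coeff {m : ℕ} (hm : p = 2 * m + 1) (hodd : m % 2 = 1) (A B : ZMod p)
    (h : ∀ u : ZMod p, u ≠ 0 → u ≠ 1 → L u = 1 → ((Es u : ℤ) : ZMod p) + 1 = A + B * (u + 1) ^ m)
    (s : ℕ) (hs : 1 ≤ s) (hs2 : 2 * s < m) :
    (m.choose s : ZMod p) ^ 2 + B * (m.choose (2 * s) : ZMod p) =
      -2 * (∑ i ∈ range (m + 1), (m.choose i : ZMod p) ^ 2 + A + B * 2 ^ m) := by
  classical
  have hp2 : p ≠ 2 := by omega
  have hp1 : p - 1 = 2 * m := by omega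
  have h4 : p % 4 = 3 := by omega
  have key : ∀ x : ℕ, 2 * m ∣ 4 * x → m ∣ x := by
    rintro x ⟨c, hc⟩
    have h5 : m ∣ 2 * x := ⟨c, by
      have : 2 * (2 * x) = 2 * (m * c) := by rw [show 2 * (2 * x) = 4 * x by ring, hc]; ring
      omega⟩
    exact (Nat.Coprime.dvd_of_dvd_mul_left (by
      rw [Nat.coprime_two_right]
      exact Nat.odd_iff.2 hodd) h5)
  have hmul1 : ∀ x : ℕ, 0 < x → x < 2 * m → m ∣ x → x = m := by
    rintro x h0 h1 ⟨c, rfl⟩
    have : c = 1 := by
      rcases Nat.lt_or_ge c 1 with h | h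
      · have : c = 0 := by omega
        subst this; omega
      · rcases Nat.lt_or_ge c 2 with h' | h'
        · omega
        · have : m * 2 ≤ m * c := Nat.mul_le_mul_left _ h'
          omega
    rw [this, mul_one]
  set G : ZMod p → ZMod p := fun u => ∑ i ∈ range (m + 1), (m.choose i : ZMod p) ^ 2 * u ^ (2 * i) +
    A + B * (u + 1) ^ m with hG
  have hG1 : G 1 = ∑ i ∈ range (m + 1), (m.choose i : ZMod p) ^ 2 + A + B * 2 ^ m := by
    simp only [hG, one_pow, mul_one]
    norm_num
  have hG0 : ∀ v : ZMod p, v ≠ 0 → v ≠ 1 → v ≠ -1 → G (v * v) = 0 := by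
    intro v h0 h1 h2
    have h3 : v * v ≠ 0 := mul_ne_zero h0 h0
    have h5 : v * v ≠ 1 := by
      intro h6
      rcases mul_self_eq_one_iff.1 h6 with h7 | h7
      · exact h1 h7
      · exact h2 h7
    have h6 : 1 + v * v ≠ 0 := by
      intro h7
      have h8 : L (v * v) = L (-1 : ZMod p) := by
        congr 1
        linear_combination h7
      rw [L_sq h0, L_neg_one h4] at h8
      norm_num at h8
    have h7 := h (v * v) h3 h5 (L_sq h0)
    rw [Es_cast hm (by omega) h6] at h7
    simp only [hG]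
    linear_combination -h7
  -- the sum over `v`
  have hS1 : ∑ v : ZMod p, v ^ (4 * (m - s)) * G (v * v) = 2 * G 1 := by
    have hne : (1 : ZMod p) ≠ -1 := by
      intro h5
      have h6 : L (1 : ZMod p) = L (-1 : ZMod p) := by rw [← h5]
      rw [L_one, L_neg_one h4] at h6
      norm_num at h6
    rw [← sum_subset (subset_univ ({1, -1} : Finset (ZMod p)))]
    · rw [sum_pair hne]
      have h5 : (-1 : ZMod p) ^ (4 * (m - s)) = 1 := by
        rw [show 4 * (m - s) = 2 * (2 * (m - s)) by ring, pow_mul]; norm_num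
      rw [one_pow, one_mul, one_mul, h5, one_mul, neg_mul_neg, one_mul]
      ring
    · intro v _ hv
      rw [mem_insert, mem_singleton, not_or] at hv
      by_cases h0 : v = 0
      · rw [h0, zero_pow (by omega), zero_mul]
      · rw [hG0 v h0 hv.1 hv.2, mul_zero]
  have hS2 : ∑ v : ZMod p, v ^ (4 * (m - s)) * G (v * v) =
      - (m.choose s : ZMod p) ^ 2 - B * (m.choose (2 * s) : ZMod p) := by
    have h5 : ∀ v : ZMod p, v ^ (4 * (m - s)) * G (v * v) =
        ∑ i ∈ range (m + 1), (m.choose i : ZMod p) ^ 2 * v ^ (4 * (m - s + i)) +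
        A * v ^ (4 * (m - s)) +
        ∑ r ∈ range (m + 1), B * (m.choose r : ZMod p) * v ^ (4 * (m - s) + 2 * r) := by
      intro v
      simp only [hG]
      rw [mul_add, mul_add, mul_sum, add_pow, mul_sum, mul_sum]
      congr 1
      · congr 1
        · refine sum_congr rfl fun i _ => ?_
          rw [← sq, ← pow_mul, mul_add 4, pow_add]
          ring
        · ring
      · refine sum_congr rfl fun r _ => ?_
        rw [← sq, ← pow_mul, one_pow, pow_add]
        ring
    rw [sum_congr rfl fun v _ => h5 v, sum_add_distrib, sum_add_distrib, sum_comm]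
    have e1 : ∑ i ∈ range (m + 1), ∑ v : ZMod p, (m.choose i : ZMod p) ^ 2 * v ^ (4 * (m - s + i)) =
        - (m.choose s : ZMod p) ^ 2 := by
      rw [sum_eq_single s]
      · rw [← mul_sum, sum_pow_ne _ (by omega), if_pos]
        · ring
        · rw [hp1]; exact ⟨2, by omega⟩
      · intro i hi his
        have hi' : i ≤ m := Nat.lt_succ_iff.1 (mem_range.1 hi)
        rw [← mul_sum, sum_pow_ne _ (by omega), if_neg, mul_zero]
        rw [hp1]
        intro hd
        have := hmul1 (m - s + i) (by omega) (by omega) (key _ hd)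
        omega
      · intro h6
        exact absurd (mem_range.2 (by omega)) h6
    have e2 : ∑ v : ZMod p, A * v ^ (4 * (m - s)) = 0 := by
      rw [← mul_sum, sum_pow_ne _ (by omega), if_neg, mul_zero]
      rw [hp1]
      intro hd
      have := hmul1 (m - s) (by omega) (by omega) (key _ hd)
      omega
    have e3 : ∑ v : ZMod p, ∑ r ∈ range (m + 1), B * (m.choose r : ZMod p) *
        v ^ (4 * (m - s) + 2 * r) = - (B * (m.choose (2 * s) : ZMod p)) := by
      rw [sum_comm, sum_eq_single (2 * s)]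
      · rw [← mul_sum, sum_pow_ne _ (by omega), if_pos]
        · ring
        · rw [hp1]; exact ⟨2, by omega⟩
      · intro r hr hrs
        have hr' : r ≤ m := Nat.lt_succ_iff.1 (mem_range.1 hr)
        rw [← mul_sum, sum_pow_ne _ (by omega), if_neg, mul_zero]
        rw [hp1]
        rintro ⟨c, hc⟩
        have h6 : m * c = 2 * (m - s) + r := by
          have : 2 * (m * c) = 2 * (2 * (m - s) + r) := by rw [← mul_assoc, ← hc]; ring
          omega
        have hc2 : c = 2 := by
          rcases Nat.lt_or_ge c 2 with h | h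
          · have : m * c ≤ m * 1 := Nat.mul_le_mul_left _ (by omega)
            omega
          · rcases Nat.lt_or_ge c 3 with h' | h'
            · omega
            · have : m * 3 ≤ m * c := Nat.mul_le_mul_left _ h'
              omega
        subst hc2
        omega
      · intro h6
        exact absurd (mem_range.2 (by omega)) h6
    rw [e1, e2, e3]
    ring
  rw [hS1, hG1] at hS2
  linear_combination hS2

/-- the recursion of the binomial coefficients `C(-1/2, k)` -/
theorem choose_rec {m : ℕ} (hm : p = 2 * m + 1) (k : ℕ) (hk : k < m) :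
    2 * ((k : ZMod p) + 1) * (m.choose (k + 1) : ZMod p) =
      - (2 * (k : ZMod p) + 1) * (m.choose k : ZMod p) := by
  have h1 := Nat.choose_succ_right_eq m k
  have h2 := congrArg (Nat.cast : ℕ → ZMod p) h1
  push_cast [Nat.cast_sub hk.le] at h2
  have h3 : (2 : ZMod p) * (m : ZMod p) + 1 = 0 := by
    have : ((2 * m + 1 : ℕ) : ZMod p) = 0 := by rw [← hm]; exact ZMod.natCast_self p
    push_cast at this
    exact this
  linear_combination 2 * h2 + (m.choose k : ZMod p) * h3

/-- **The number theory behind the three-valued fiducials.** -/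
theorem num {m : ℕ} (hm : p = 2 * m + 1) (hodd : m % 2 = 1) (hm7 : 7 ≤ m) (e1 e2 : ℤ)
    (h : ∀ u : ZMod p, u ≠ 0 → u ≠ 1 → L u = 1 → (L (1 + u) = 1 → Es u = e1) ∧
      (L (1 + u) = -1 → Es u = e2)) : p = 19 := by
  have hp : p.Prime := Fact.out
  have hp2 : p ≠ 2 := by omega
  have h20 : (2 : ZMod p) ≠ 0 := by
    intro h2
    have : ((2 : ℕ) : ZMod p) = 0 := by exact_mod_cast h2
    rw [ZMod.natCast_eq_zero_iff] at this
    have := Nat.le_of_dvd (by norm_num) this
    omega
  have h4 : p % 4 = 3 := by omega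
  have hpm : p / 2 = m := by omega
  obtain ⟨A, B, hAB⟩ : ∃ A B : ZMod p, ∀ u : ZMod p, u ≠ 0 → u ≠ 1 → L u = 1 →
      ((Es u : ℤ) : ZMod p) + 1 = A + B * (u + 1) ^ m := by
    refine ⟨((e1 : ZMod p) + e2) / 2 + 1, ((e1 : ZMod p) - e2) / 2, ?_⟩
    intro u h0 h1 hu
    have h6 : 1 + u ≠ 0 := by
      intro h7
      have h8 : L u = L (-1 : ZMod p) := by
        congr 1
        linear_combination h7
      rw [hu, L_neg_one h4] at h8
      norm_num at h8
    have h7 := L_cast hp2 (u + 1)
    rw [hpm] at h7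
    rw [← h7, add_comm u 1]
    rcases L_pm h6 with h8 | h8
    · rw [(h u h0 h1 hu).1 h8, h8]
      push_cast
      field_simp
      ring
    · rw [(h u h0 h1 hu).2 h8, h8]
      push_cast
      field_simp
      ring
  have c1 := coeff hm hodd A B hAB 1 (by norm_num) (by omega)
  have c2 := coeff hm hodd A B hAB 2 (by norm_num) (by omega)
  have c3 := coeff hm hodd A B hAB 3 (by norm_num) (by omega)
  norm_num at c1 c2 c3
  have r0 := choose_rec hm 0 (by omega)
  have r1 := choose_rec hm 1 (by omega)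
  have r2 := choose_rec hm 2 (by omega)
  have r3 := choose_rec hm 3 (by omega)
  have r4 := choose_rec hm 4 (by omega)
  have r5 := choose_rec hm 5 (by omega)
  norm_num at r0 r1 r2 r3 r4 r5
  have hsmall : ∀ q : ℕ, 0 < q → q < p → (q : ZMod p) ≠ 0 := by
    intro q h0 hq h1
    rw [ZMod.natCast_eq_zero_iff] at h1
    exact absurd (Nat.le_of_dvd h0 h1) (by omega)
  have h3 : (3 : ZMod p) ≠ 0 := by exact_mod_cast hsmall 3 (by norm_num) (by omega)
  have h5 : (5 : ZMod p) ≠ 0 := by exact_mod_cast hsmall 5 (by norm_num) (by omega)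
  have a1 : (8 : ZMod p) * (m.choose 2 : ZMod p) = 3 := by linear_combination 2 * r1 - 3 * r0
  have a2 : (16 : ZMod p) * (m.choose 3 : ZMod p) = -5 := by
    apply mul_left_cancel₀ h3
    linear_combination 8 * r2 - 5 * a1
  have a3 : (128 : ZMod p) * (m.choose 4 : ZMod p) = 35 := by
    linear_combination 16 * r3 - 7 * a2
  have a4 : (256 : ZMod p) * (m.choose 5 : ZMod p) = -63 := by
    apply mul_left_cancel₀ h5
    linear_combination 128 * r4 - 9 * a3
  have a5 : (1024 : ZMod p) * (m.choose 6 : ZMod p) = 231 := by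
    apply mul_left_cancel₀ h3
    linear_combination 256 * r5 - 11 * a4
  have b1 : 14 + 13 * B = 0 := by
    linear_combination 128 * c1 - 128 * c2 - 32 * (2 * (m : ZMod p) - 1) * r0 +
      2 * (8 * (m.choose 2 : ZMod p) + 3) * a1 - 16 * B * a1 + B * a3
  have b2 : 44 + 49 * B = 0 := by
    linear_combination 1024 * c2 - 1024 * c3 - 16 * (8 * (m.choose 2 : ZMod p) + 3) * a1 +
      4 * (16 * (m.choose 3 : ZMod p) - 5) * a2 - 8 * B * a3 + B * a5
  have b3 : ((114 : ℕ) : ZMod p) = 0 := by
    push_cast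
    linear_combination 49 * b1 - 13 * b2
  rw [ZMod.natCast_eq_zero_iff] at b3
  have hmem : p ∈ (114 : ℕ).primeFactors := Nat.mem_primeFactors.2 ⟨hp, b3, by norm_num⟩
  have h114 : (114 : ℕ).primeFactors = {2, 3, 19} := by
    rw [show (114 : ℕ) = 2 * (3 * 19) by norm_num, Nat.primeFactors_mul (by norm_num) (by norm_num),
      Nat.primeFactors_mul (by norm_num) (by norm_num), Nat.Prime.primeFactors (by norm_num),
      Nat.Prime.primeFactors (by norm_num), Nat.Prime.primeFactors (by norm_num)]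
    rfl
  rw [h114] at hmem
  simp only [mem_insert, mem_singleton] at hmem
  omega

end Pool.Agent.V8H99.SL
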