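import Pool.Agent.V8H99.SL.Num

/-! # The four term sums of three-valued vectors -/

set_option autoImplicit false

namespace Pool.Agent.V8H99.SL

open Finset
open scoped ComplexConjugate

variable {p : ℕ} [Fact p.Prime]

theorem sum_L (hp2 : p ≠ 2) (a : ZMod p) : ∑ j : ZMod p, L (j + a) = 0 := by
  have hc : ringChar (ZMod p) ≠ 2 := by rw [ZMod.ringChar_zmod_n]; exact hp2
  rw [← quadraticChar_sum_zero hc]
  exact Fintype.sum_equiv (Equiv.addRight a) _ _ fun j => rfl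

theorem sum_LL0 (hp2 : p ≠ 2) {c : ZMod p} (hc : c ≠ 0) : ∑ j : ZMod p, L j * L (j + c) = -1 := by
  classical
  have h1 : ∑ y : ZMod p, L (1 + c * y) = 0 := by
    have hcc : ringChar (ZMod p) ≠ 2 := by rw [ZMod.ringChar_zmod_n]; exact hp2
    rw [← quadraticChar_sum_zero hcc]
    refine Fintype.sum_bijective (fun y : ZMod p => 1 + c * y) ?_ _ _ fun j => rfl
    refine ⟨fun x y hxy => ?_, fun y => ⟨(y - 1) / c, ?_⟩⟩
    · exact mul_left_cancel₀ hc (add_left_cancel hxy)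
    · show 1 + c * ((y - 1) / c) = y
      field_simp
      ring
  rw [← Finset.add_sum_erase univ (fun j : ZMod p => L j * L (j + c)) (mem_univ (0 : ZMod p))]
  rw [← Finset.add_sum_erase univ (fun y : ZMod p => L (1 + c * y)) (mem_univ (0 : ZMod p))] at h1
  simp only [mul_zero, add_zero, L_one] at h1
  rw [L_zero, zero_mul, zero_add]
  have h2 : ∑ j ∈ univ.erase (0 : ZMod p), L j * L (j + c) =
      ∑ y ∈ univ.erase (0 : ZMod p), L (1 + c * y) := by
    refine Finset.sum_bij' (fun j _ => j⁻¹) (fun y _ => y⁻¹) ?_ ?_ ?_ ?_ ?_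
    · intro j hj
      exact mem_erase.2 ⟨inv_ne_zero (ne_of_mem_erase hj), mem_univ _⟩
    · intro j hj
      exact mem_erase.2 ⟨inv_ne_zero (ne_of_mem_erase hj), mem_univ _⟩
    · intro j _; exact inv_inv j
    · intro j _; exact inv_inv j
    · intro j hj
      have hj0 : j ≠ 0 := ne_of_mem_erase hj
      show L j * L (j + c) = L (1 + c * j⁻¹)
      have h3 : j + c = j * (1 + c * j⁻¹) := by field_simp
      rw [h3, L_mul, ← mul_assoc, Lsq_one hj0, one_mul]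
  rw [h2]
  linarith

theorem sum_LL (hp2 : p ≠ 2) {a b : ZMod p} (hab : a ≠ b) :
    ∑ j : ZMod p, L (j + a) * L (j + b) = -1 := by
  rw [← sum_LL0 hp2 (sub_ne_zero.2 hab.symm)]
  refine Fintype.sum_equiv (Equiv.addRight a) _ _ fun j => ?_
  show L (j + a) * L (j + b) = L (j + a) * L (j + a + (b - a))
  congr 2
  ring

/-- the reflection `j ↦ -1-u-j` -/
theorem sum_reflect (F : ZMod p → ℤ) (c : ZMod p) : ∑ j, F j = ∑ j, F (c - j) :=
  (Fintype.sum_equiv (Equiv.subLeft c) _ _ fun j => rfl).symm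

theorem sum_LLL (h4 : p % 4 = 3) (u : ZMod p) :
    ∑ j : ZMod p, (L j * L (j + 1) * L (j + u) + L (j + 1) * L (j + u) * L (j + 1 + u)) = 0 := by
  rw [sum_add_distrib, sum_reflect (fun j => L (j + 1) * L (j + u) * L (j + 1 + u)) (-1 - u),
    ← sum_add_distrib]
  refine sum_eq_zero fun j _ => ?_
  have e1 : -1 - u - j + 1 = -(j + u) := by ring
  have e2 : -1 - u - j + u = -(j + 1) := by ring
  have e3 : -1 - u - j + 1 + u = -j := by ring
  rw [e3, e1, e2, L_neg h4, L_neg h4, L_neg h4]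
  ring

theorem sum_LLL' (h4 : p % 4 = 3) (u : ZMod p) :
    ∑ j : ZMod p, (L j * L (j + 1) * L (j + 1 + u) + L j * L (j + u) * L (j + 1 + u)) = 0 := by
  rw [sum_add_distrib, sum_reflect (fun j => L j * L (j + u) * L (j + 1 + u)) (-1 - u),
    ← sum_add_distrib]
  refine sum_eq_zero fun j _ => ?_
  have e1 : -1 - u - j = -(j + 1 + u) := by ring
  have e2 : -1 - u - j + u = -(j + 1) := by ring
  have e3 : -1 - u - j + 1 + u = -j := by ring
  rw [e2, e3, e1, L_neg h4, L_neg h4, L_neg h4]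
  ring

/-- the three-valued vectors -/
noncomputable def V (g0 g1 w : ℂ) (j : ZMod p) : ℂ := g0 + g1 * (L j : ℂ) + if j = 0 then w else 0

/-- the part without `w` -/
noncomputable def AA (g0 g1 : ℂ) (j : ZMod p) : ℂ := g0 + g1 * (L j : ℂ)

theorem V_zero (g0 g1 w : ℂ) : V g0 g1 w (0 : ZMod p) = g0 + w := by
  unfold V; rw [L_zero, if_pos rfl]; push_cast; ring

theorem V_ne (g0 g1 w : ℂ) {j : ZMod p} (hj : j ≠ 0) : V g0 g1 w j = AA g0 g1 j := by
  unfold V AA; rw [if_neg hj, add_zero]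

theorem AA_zero (g0 g1 : ℂ) : AA g0 g1 (0 : ZMod p) = g0 := by
  unfold AA; rw [L_zero]; push_cast; ring

theorem sum_AA (h4 : p % 4 = 3) (g0 g1 h0 h1 : ℂ) {u : ZMod p} (hu0 : u ≠ 0) (hu1 : u ≠ 1)
    (hu2 : 1 + u ≠ 0) :
    ∑ j : ZMod p, AA g0 g1 j * AA h0 h1 (j + 1) * AA h0 h1 (j + u) * AA g0 g1 (j + 1 + u) =
      p * (g0 * h0) ^ 2 - (4 * (g0 * h0) * (g1 * h1) + g1 ^ 2 * h0 ^ 2 + g0 ^ 2 * h1 ^ 2) +
        (g1 * h1) ^ 2 * (Es u : ℂ) := by
  have hp2 : p ≠ 2 := by omega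
  have s1 : ∑ j : ZMod p, (L j : ℂ) = 0 := by
    have := congrArg (Int.cast : ℤ → ℂ) (sum_L hp2 (0 : ZMod p))
    push_cast at this
    simpa using this
  have s2 : ∑ j : ZMod p, (L (j + 1) : ℂ) = 0 := by
    have := congrArg (Int.cast : ℤ → ℂ) (sum_L hp2 (1 : ZMod p))
    push_cast at this
    simpa using this
  have s3 : ∑ j : ZMod p, (L (j + u) : ℂ) = 0 := by
    have := congrArg (Int.cast : ℤ → ℂ) (sum_L hp2 u)
    push_cast at this
    simpa using this
  have s4 : ∑ j : ZMod p, (L (j + 1 + u) : ℂ) = 0 := by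
    have := congrArg (Int.cast : ℤ → ℂ) (sum_L hp2 (1 + u))
    push_cast at this
    simp only [← add_assoc] at this
    exact this
  have q : ∀ a b : ZMod p, a ≠ b → ∑ j : ZMod p, (L (j + a) : ℂ) * (L (j + b) : ℂ) = -1 := by
    intro a b hab
    have := congrArg (Int.cast : ℤ → ℂ) (sum_LL hp2 hab)
    push_cast at this
    exact this
  have q12 : ∑ j : ZMod p, (L j : ℂ) * (L (j + 1) : ℂ) = -1 := by
    have := q 0 1 zero_ne_one
    simpa using this
  have q13 : ∑ j : ZMod p, (L j : ℂ) * (L (j + u) : ℂ) = -1 := by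
    have := q 0 u hu0.symm
    simpa using this
  have q14 : ∑ j : ZMod p, (L j : ℂ) * (L (j + 1 + u) : ℂ) = -1 := by
    have := q 0 (1 + u) hu2.symm
    simp only [← add_assoc, add_zero] at this
    exact this
  have q23 : ∑ j : ZMod p, (L (j + 1) : ℂ) * (L (j + u) : ℂ) = -1 := q 1 u hu1.symm
  have q24 : ∑ j : ZMod p, (L (j + 1) : ℂ) * (L (j + 1 + u) : ℂ) = -1 := by
    have := q 1 (1 + u) (fun h => hu0 (by linear_combination -h))
    simp only [← add_assoc] at this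
    exact this
  have q34 : ∑ j : ZMod p, (L (j + u) : ℂ) * (L (j + 1 + u) : ℂ) = -1 := by
    have := q u (1 + u) (fun h => one_ne_zero (α := ZMod p) (by linear_combination -h))
    simp only [← add_assoc] at this
    exact this
  have t1 : ∑ j : ZMod p, ((L j : ℂ) * (L (j + 1) : ℂ) * (L (j + u) : ℂ) +
      (L (j + 1) : ℂ) * (L (j + u) : ℂ) * (L (j + 1 + u) : ℂ)) = 0 := by
    have := congrArg (Int.cast : ℤ → ℂ) (sum_LLL h4 u)
    push_cast at this
    exact this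
  have t2 : ∑ j : ZMod p, ((L j : ℂ) * (L (j + 1) : ℂ) * (L (j + 1 + u) : ℂ) +
      (L j : ℂ) * (L (j + u) : ℂ) * (L (j + 1 + u) : ℂ)) = 0 := by
    have := congrArg (Int.cast : ℤ → ℂ) (sum_LLL' h4 u)
    push_cast at this
    exact this
  have f1 : ∑ j : ZMod p, (L j : ℂ) * (L (j + 1) : ℂ) * (L (j + u) : ℂ) * (L (j + 1 + u) : ℂ) =
      (Es u : ℂ) := by
    unfold Es
    push_cast
    rfl
  have hexp : ∀ j : ZMod p, AA g0 g1 j * AA h0 h1 (j + 1) * AA h0 h1 (j + u) * AA g0 g1 (j + 1 + u) =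
      g0 ^ 2 * h0 ^ 2 + (g0 * h0 ^ 2 * g1) * (L j : ℂ) + (g0 * h0 ^ 2 * g1) * (L (j + 1 + u) : ℂ) +
      (g0 ^ 2 * h0 * h1) * (L (j + 1) : ℂ) + (g0 ^ 2 * h0 * h1) * (L (j + u) : ℂ) +
      (g1 ^ 2 * h0 ^ 2) * ((L j : ℂ) * (L (j + 1 + u) : ℂ)) +
      (g0 ^ 2 * h1 ^ 2) * ((L (j + 1) : ℂ) * (L (j + u) : ℂ)) +
      (g0 * g1 * h0 * h1) * ((L j : ℂ) * (L (j + 1) : ℂ)) +
      (g0 * g1 * h0 * h1) * ((L j : ℂ) * (L (j + u) : ℂ)) +
      (g0 * g1 * h0 * h1) * ((L (j + 1) : ℂ) * (L (j + 1 + u) : ℂ)) +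
      (g0 * g1 * h0 * h1) * ((L (j + u) : ℂ) * (L (j + 1 + u) : ℂ)) +
      (g1 ^ 2 * h0 * h1) * ((L j : ℂ) * (L (j + 1) : ℂ) * (L (j + 1 + u) : ℂ) +
        (L j : ℂ) * (L (j + u) : ℂ) * (L (j + 1 + u) : ℂ)) +
      (g0 * g1 * h1 ^ 2) * ((L j : ℂ) * (L (j + 1) : ℂ) * (L (j + u) : ℂ) +
        (L (j + 1) : ℂ) * (L (j + u) : ℂ) * (L (j + 1 + u) : ℂ)) +
      (g1 ^ 2 * h1 ^ 2) *
        ((L j : ℂ) * (L (j + 1) : ℂ) * (L (j + u) : ℂ) * (L (j + 1 + u) : ℂ)) := by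
    intro j
    unfold AA
    ring
  rw [sum_congr rfl fun j _ => hexp j]
  rw [sum_add_distrib] at t1 t2
  simp only [sum_add_distrib, mul_add, ← mul_sum]
  rw [s1, s2, s3, s4, q12, q13, q14, q23, q24, q34, f1]
  simp only [sum_const, card_univ, ZMod.card, nsmul_eq_mul]
  linear_combination (g1 ^ 2 * h0 * h1) * t2 + (g0 * g1 * h1 ^ 2) * t1

theorem conj_AA (g0 g1 : ℂ) (j : ZMod p) : conj (AA g0 g1 j) = AA (conj g0) (conj g1) j := by
  unfold AA
  rw [map_add, map_mul]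
  congr 2
  exact map_intCast (starRingEnd ℂ) _

/-- **The four term sum of a three-valued vector at a square `u`.** -/
theorem sum_V (h4 : p % 4 = 3) (g0 g1 w : ℂ) {u : ZMod p} (hu : L u = 1) (hu1 : u ≠ 1) :
    ∑ j : ZMod p, V g0 g1 w j * conj (V g0 g1 w (j + 1)) * conj (V g0 g1 w (j + u)) *
        V g0 g1 w (j + 1 + u) =
      p * (g0 * conj g0) ^ 2 - (4 * (g0 * conj g0) * (g1 * conj g1) + g1 ^ 2 * conj g0 ^ 2 +
        g0 ^ 2 * conj g1 ^ 2) + (g1 * conj g1) ^ 2 * (Es u : ℂ) +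
      w * ((conj g0 + conj g1) ^ 2 * (g0 + g1 * (L (1 + u) : ℂ)) +
        (conj g0 - conj g1) ^ 2 * (g0 - g1 * (L (1 + u) : ℂ))) +
      2 * conj w * conj g0 * (g0 ^ 2 - g1 ^ 2) := by
  classical
  have hu0 : u ≠ 0 := by
    intro h
    rw [h, L_zero] at hu
    norm_num at hu
  have hu2 : 1 + u ≠ 0 := by
    intro h
    have h8 : L u = L (-1 : ZMod p) := by
      congr 1
      linear_combination h
    rw [hu, L_neg_one h4] at h8
    norm_num at h8
  have hu3 : u - 1 ≠ 0 := sub_ne_zero.2 hu1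
  rw [← sum_AA h4 g0 g1 (conj g0) (conj g1) hu0 hu1 hu2, add_assoc, ← sub_eq_iff_eq_add',
    ← sum_sub_distrib]
  set D : ZMod p → ℂ := fun j => V g0 g1 w j * conj (V g0 g1 w (j + 1)) * conj (V g0 g1 w (j + u)) *
        V g0 g1 w (j + 1 + u) - AA g0 g1 j * AA (conj g0) (conj g1) (j + 1) *
        AA (conj g0) (conj g1) (j + u) * AA g0 g1 (j + 1 + u) with hD
  have hS : ∑ j, D j = D 0 + (D (-1) + (D (-u) + D (-(1 + u)))) := by
    have h01 : (0 : ZMod p) ≠ -1 := fun h => one_ne_zero (α := ZMod p) (by linear_combination h)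
    have h0u : (0 : ZMod p) ≠ -u := fun h => hu0 (by linear_combination h)
    have h0v : (0 : ZMod p) ≠ -(1 + u) := fun h => hu2 (by linear_combination h)
    have h1u : (-1 : ZMod p) ≠ -u := fun h => hu1 (by linear_combination h)
    have h1v : (-1 : ZMod p) ≠ -(1 + u) := fun h => hu0 (by linear_combination h)
    have huv : (-u : ZMod p) ≠ -(1 + u) := fun h => one_ne_zero (α := ZMod p)
      (by linear_combination h)
    rw [← sum_subset (subset_univ ({0, -1, -u, -(1 + u)} : Finset (ZMod p)))]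
    · rw [sum_insert, sum_insert, sum_insert, sum_singleton]
      · rw [mem_singleton]; exact huv
      · simp only [mem_insert, mem_singleton, not_or]; exact ⟨h1u, h1v⟩
      · simp only [mem_insert, mem_singleton, not_or]; exact ⟨h01, h0u, h0v⟩
    · intro j _ hj
      simp only [mem_insert, mem_singleton, not_or] at hj
      obtain ⟨j1, j2, j3, j4⟩ := hj
      have k2 : j + 1 ≠ 0 := fun h => j2 (by linear_combination h)
      have k3 : j + u ≠ 0 := fun h => j3 (by linear_combination h)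
      have k4 : j + 1 + u ≠ 0 := fun h => j4 (by linear_combination h)
      show V g0 g1 w j * conj (V g0 g1 w (j + 1)) * conj (V g0 g1 w (j + u)) *
        V g0 g1 w (j + 1 + u) - AA g0 g1 j * AA (conj g0) (conj g1) (j + 1) *
        AA (conj g0) (conj g1) (j + u) * AA g0 g1 (j + 1 + u) = 0
      rw [V_ne _ _ _ j1, V_ne _ _ _ k2, V_ne _ _ _ k3, V_ne _ _ _ k4, conj_AA, conj_AA, sub_self]
  rw [hS]
  have hLu : (L u : ℂ) = 1 := by rw [hu]; norm_num
  have hL1 : (L (1 : ZMod p) : ℂ) = 1 := by rw [L_one]; norm_num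
  have hLm1 : (L (-1 : ZMod p) : ℂ) = -1 := by rw [L_neg_one h4]; norm_num
  have hLmu : (L (-u : ZMod p) : ℂ) = -1 := by rw [L_neg h4, hu]; norm_num
  have hLmv : (L (-(1 + u) : ZMod p) : ℂ) = - (L (1 + u) : ℂ) := by rw [L_neg h4]; push_cast; ring
  have hLd : (L (1 - u : ZMod p) : ℂ) = - (L (u - 1) : ℂ) := by
    rw [show 1 - u = -(u - 1) by ring, L_neg h4]; push_cast; ring
  have d0 : D 0 = w * ((conj g0 + conj g1) ^ 2 * (g0 + g1 * (L (1 + u) : ℂ))) := by
    simp only [hD, zero_add]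
    rw [V_zero, V_ne _ _ _ one_ne_zero, V_ne _ _ _ hu0, V_ne _ _ _ hu2, conj_AA, conj_AA, AA_zero]
    unfold AA
    rw [hLu, hL1]
    ring
  have d1 : D (-1) = conj w * (g0 - g1) * (conj g0 + conj g1 * (L (u - 1) : ℂ)) * (g0 + g1) := by
    simp only [hD]
    rw [show (-1 : ZMod p) + 1 = 0 by ring, show (-1 : ZMod p) + u = u - 1 by ring, zero_add,
      V_zero, V_ne _ _ _ (neg_ne_zero.2 one_ne_zero), V_ne _ _ _ hu3, V_ne _ _ _ hu0, conj_AA,
      AA_zero, map_add]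
    unfold AA
    rw [hLu, hLm1]
    ring
  have d2 : D (-u) = conj w * (g0 - g1) * (conj g0 - conj g1 * (L (u - 1) : ℂ)) * (g0 + g1) := by
    simp only [hD]
    rw [show (-u : ZMod p) + u = 0 by ring, show (-u : ZMod p) + 1 = 1 - u by ring,
      show (1 - u : ZMod p) + u = 1 by ring,
      V_zero, V_ne _ _ _ (neg_ne_zero.2 hu0), V_ne _ _ _ (sub_ne_zero.2 hu1.symm),
      V_ne _ _ _ one_ne_zero, conj_AA, AA_zero, map_add]
    unfold AA
    rw [hL1, hLmu, hLd]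
    ring
  have d3 : D (-(1 + u)) = w * ((conj g0 - conj g1) ^ 2 * (g0 - g1 * (L (1 + u) : ℂ))) := by
    simp only [hD]
    rw [show (-(1 + u) : ZMod p) + 1 = -u by ring, show (-(1 + u) : ZMod p) + u = -1 by ring,
      show (-u : ZMod p) + u = 0 by ring,
      V_zero, V_ne _ _ _ (neg_ne_zero.2 hu2), V_ne _ _ _ (neg_ne_zero.2 hu0),
      V_ne _ _ _ (neg_ne_zero.2 one_ne_zero), conj_AA, conj_AA, AA_zero]
    unfold AA
    rw [hLm1, hLmu, hLmv]
    ring
  rw [d0, d1, d2, d3]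
  ring

end Pool.Agent.V8H99.SL
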